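import Pool.Agent.Lib.MP_90aff6_co.CT.Asm
import Pool.Agent.Lib.MP_90aff6_co.CT.Pnt
import Pool.Agent.Lib.MP_90aff6_co.Stable

set_option autoImplicit false

/-!
Finite colored Tverberg numbers of type B for every number of parts: `T(r, k, d) ≤ 2 p - 1` for
every odd prime `p ≥ r` with `p (d - k - 1) + r ≤ d`.  In codimension one this covers the whole
type B range `r ≤ d`.
-/

namespace Pool.Agent.Results.MP_90aff6_co.PrimeBound

/-- `Works t r k d`: any `k + 1` pairwise disjoint finite colour classes in `ℝ ^ d`, each with at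
least `t` points, admit `r` pairwise disjoint rainbow sets whose convex hulls have a common point
(the property inside the frozen statement of the problem, for an arbitrary bound `t`). -/
def Works (t r k d : ℕ) : Prop :=
  ∀ C : Fin (k + 1) → Finset (EuclideanSpace ℝ (Fin d)),
    (∀ i j, i ≠ j → Disjoint (C i) (C j)) →
    (∀ i, t ≤ (C i).card) →
    ∃ a : Fin r → Fin (k + 1) → EuclideanSpace ℝ (Fin d),
      (∀ i j, a i j ∈ C j) ∧
      Function.Injective (fun p : Fin r × Fin (k + 1) => a p.1 p.2) ∧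
      (⋂ i, convexHull ℝ (Set.range (a i))).Nonempty

/-- The colored Tverberg number `T(r, k, d)`, the least `t` with `Works t r k d`
(`⊤` if there is none). -/
noncomputable def T (r k d : ℕ) : ℕ∞ :=
  ⨅ t : ℕ, ⨅ _ : Works t r k d, (t : ℕ∞)

lemma works_steps {t r k d : ℕ} (s : ℕ) (hW : Works t (r + s) (k + s) (d + s)) :
    Works t r k d :=
  Pool.Agent.Lib.MP_90aff6_co.Stable.works_steps s hW

lemma T_le {t r k d : ℕ} (h : Works t r k d) : T r k d ≤ t :=
  iInf_le_of_le t (iInf_le_of_le h le_rfl)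

/-- The bound `2 p - 1`. -/
lemma works_prime {r k d p : ℕ} (hp : p.Prime) (hp2 : p ≠ 2) (hrp : r ≤ p) (hkd : k < d)
    (h : p * (d - k - 1) + r ≤ d) : Works (2 * p - 1) r k d := by
  obtain ⟨s, rfl⟩ := Nat.exists_eq_add_of_le hrp
  obtain ⟨c, rfl⟩ : ∃ c, d = k + c + 1 := ⟨d - k - 1, by omega⟩
  have e1 : k + c + 1 - k - 1 = c := by omega
  rw [e1] at h
  refine works_steps s ?_
  exact Pool.Agent.Lib.MP_90aff6_co.CT.primeTheorem (r + s) hp hp2 (k + s) (k + c + 1 + s)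
    (by nlinarith)

/-- Type B colored Tverberg numbers: the stable inequality, the bound `2 p - 1` for every odd
prime `p ≥ r` with `p (d - k - 1) + r ≤ d`, the whole range in codimension one, a bound below
`4 r`, and the bound `(2 + ε) r` for large `r`. -/
theorem result :
    (∀ r k d s : ℕ, T r k d ≤ T (r + s) (k + s) (d + s)) ∧
    (∀ r k d p : ℕ, p.Prime → p ≠ 2 → r ≤ p → k < d → p * (d - k - 1) + r ≤ d →
      T r k d ≤ (2 * p - 1 : ℕ)) ∧
    (∀ r d p : ℕ, p.Prime → p ≠ 2 → 1 ≤ r → r ≤ p → r ≤ d →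
      T r (d - 1) d ≤ (2 * p - 1 : ℕ)) ∧
    (∀ r k d : ℕ, 3 ≤ r → k < d → 2 * (r - 1) * (d - k - 1) + r ≤ d →
      T r k d ≤ (4 * r - 5 : ℕ)) ∧
    (∀ ε : ℝ, 0 < ε → ∃ R : ℕ, ∀ r k d : ℕ, R ≤ r → k < d →
      (1 + ε) * (r : ℝ) * ((d - k - 1 : ℕ) : ℝ) + (r : ℝ) ≤ (d : ℝ) →
      ∃ t : ℕ, T r k d ≤ (t : ℕ∞) ∧ (t : ℝ) ≤ (2 + ε) * (r : ℝ)) := by
  have hmain : ∀ r k d p : ℕ, p.Prime → p ≠ 2 → r ≤ p → k < d → p * (d - k - 1) + r ≤ d →
      T r k d ≤ (2 * p - 1 : ℕ) := fun r k d p hp hp2 hrp hkd h =>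
    T_le (works_prime hp hp2 hrp hkd h)
  refine ⟨fun r k d s => ?_, hmain, fun r d p hp hp2 hr hrp hrd => ?_, fun r k d hr hkd h => ?_,
    fun ε hε => ?_⟩
  · unfold T
    refine le_iInf (fun t => le_iInf (fun ht => ?_))
    exact iInf_le_of_le t (iInf_le_of_le (works_steps s ht) le_rfl)
  · refine hmain r (d - 1) d p hp hp2 hrp (by omega) ?_
    have e1 : d - (d - 1) - 1 = 0 := by omega
    rw [e1]
    omega
  · obtain ⟨p, hp, h1, h2⟩ := Nat.exists_prime_lt_and_le_two_mul (r - 1) (by omega)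
    have h3 : p * (d - k - 1) ≤ 2 * (r - 1) * (d - k - 1) := Nat.mul_le_mul_right _ h2
    refine (hmain r k d p hp (by omega) (by omega) hkd (by omega)).trans ?_
    exact_mod_cast (by omega : 2 * p - 1 ≤ 4 * r - 5)
  · obtain ⟨r0, h0⟩ := Pool.Agent.Lib.MP_90aff6_co.CT.prime_between (ε / 2) (by positivity)
    obtain ⟨N, hN⟩ := exists_nat_ge r0
    refine ⟨max N 3, fun r k d hr hkd h => ?_⟩
    have hr3 : 3 ≤ r := (le_max_right _ _).trans hr
    have hrN : N ≤ r := (le_max_left _ _).trans hr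
    have hrN' : (N : ℝ) ≤ r := by exact_mod_cast hrN
    obtain ⟨p, hp, h1, h2⟩ := h0 (r : ℝ) (hN.trans hrN')
    have hrp : r < p := by exact_mod_cast h1
    have hr0 : (0 : ℝ) < r := by
      have : 0 < r := by omega
      exact_mod_cast this
    have h3 : (p : ℝ) ≤ (1 + ε) * r := by nlinarith
    refine ⟨2 * p - 1, hmain r k d p hp (by omega) hrp.le hkd ?_, ?_⟩
    · have h4 : (p : ℝ) * ((d - k - 1 : ℕ) : ℝ) ≤ (1 + ε) * (r : ℝ) * ((d - k - 1 : ℕ) : ℝ) :=
        mul_le_mul_of_nonneg_right h3 (Nat.cast_nonneg _)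
      have h5 : (p : ℝ) * ((d - k - 1 : ℕ) : ℝ) + (r : ℝ) ≤ (d : ℝ) := by linarith
      exact_mod_cast h5
    · have h6 : ((2 * p - 1 : ℕ) : ℝ) ≤ ((2 * p : ℕ) : ℝ) := by
        exact_mod_cast (by omega : 2 * p - 1 ≤ 2 * p)
      push_cast at h6
      linarith

end Pool.Agent.Results.MP_90aff6_co.PrimeBound
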